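import Pool.Agent.Helper13.RG.Stmts

set_option autoImplicit false

open scoped Classical

namespace Pool.Agent.Helper99.RG

open Pool.Agent.Helper14.BSC Pool.Agent.Helper13.ZL Pool.Agent.Helper13.RG

theorem st_NUL (h1 : ST_DLIB) (h2 : ST_COP) : ST_NUL := by
  intro k Ω _ _ _ _ _ D hNG
  obtain ⟨hmono, hunion, hfin, -⟩ := h1 k
  have hinvNC : ∀ x : LL D, NC D x → NC D x⁻¹ := by
    intro x hx c hc
    refine hx c⁻¹ ?_
    rw [map_inv₀, ← hc, inv_inv]
  -- (1)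
  have hZ : ∀ h : LL D, NC D h → Null (SetZ D h) := by
    intro h hh
    have hNC : NC D (h + 1) := by
      intro c hc
      refine hh (c - 1) ?_
      rw [map_sub, ← hc, map_one]
      ring
    refine hmono _ _ ?_ (hNG (h + 1) hNC)
    rintro v ⟨p, hp, σ, P, hC, hov, hlt⟩
    have hmem : h + 1 ∈ P.C := P.C.add_mem _ _ hC P.C.one_mem
    have hval : P.φ ⟨h + 1, hmem⟩ - 1 = P.φ ⟨h, hC⟩ := by
      have e : (⟨h + 1, hmem⟩ : P.C) = ⟨h, hC⟩ + 1 := rfl
      rw [e, map_add, map_one]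
      ring
    have := h2 k Ω D v p σ P hov ⟨h + 1, hmem⟩ (by rw [hval]; exact hlt)
    exact this
  have hempty : ∀ S : Set (Pl k), (∀ v, v ∉ S) → Null S := by
    intro S hS
    have : S = ∅ := Set.eq_empty_iff_forall_notMem.2 hS
    rw [this]
    exact hfin _ Set.finite_empty
  -- inverse of an infinite value
  have hinv : ∀ (p : ℕ) [Fact p.Prime] (σ : k →+* ℂ_[p]) (P : Place D p σ) (x : LL D), x ∉ P.C →
      ∃ h : x⁻¹ ∈ P.C, P.φ ⟨x⁻¹, h⟩ = 0 := by
    intro p _ σ P x hx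
    have h : x⁻¹ ∈ P.C := (P.C.mem_or_inv_mem x).resolve_left hx
    refine ⟨h, (P.ker ⟨x⁻¹, h⟩).2 (Or.inr ?_)⟩
    simpa using hx
  have hINF : ∀ x : LL D, Null (INF D x) := by
    intro x
    by_cases hx : NC D x
    · refine hmono _ _ ?_ (hZ x⁻¹ (hinvNC x hx))
      rintro v ⟨p, hp, σ, P, hov, hnot⟩
      obtain ⟨h, h0⟩ := hinv p σ P x hnot
      exact ⟨p, hp, σ, P, h, hov, by rw [h0, norm_zero]; exact one_pos⟩
    · unfold NC at hx
      push Not at hx
      obtain ⟨c, hc⟩ := hx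
      refine hempty _ ?_
      rintro v ⟨p, hp, σ, P, hov, hnot⟩
      obtain ⟨h, -⟩ := P.base c
      exact hnot (hc ▸ h)
  refine ⟨hZ, hINF, ?_, ?_⟩
  · intro x hx0
    by_cases hx : NC D x
    · refine hmono _ _ ?_ (hZ x hx)
      rintro v ⟨p, hp, σ, P, h, hov, h0⟩
      exact ⟨p, hp, σ, P, h, hov, by rw [h0, norm_zero]; exact one_pos⟩
    · unfold NC at hx
      push Not at hx
      obtain ⟨c, hc⟩ := hx
      refine hempty _ ?_
      rintro v ⟨p, hp, σ, P, h, hov, h0⟩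
      obtain ⟨h', hv⟩ := P.base c
      have hc0 : c ≠ 0 := by
        rintro rfl
        apply hx0
        rw [hc, map_zero]
      have e : (⟨x, h⟩ : P.C) = ⟨algebraMap k (LL D) c, h'⟩ := Subtype.ext hc
      rw [e, hv] at h0
      exact hc0 ((map_eq_zero σ).1 h0)
  · intro x hx
    refine hmono _ _ ?_ (hunion _ _ (hunion _ _ (hINF x) (hZ x hx)) (hZ x⁻¹ (hinvNC x hx)))
    rintro v ⟨p, hp, σ, P, hov, hnot⟩
    by_cases hC : x ∈ P.C
    · have hne : ‖P.φ ⟨x, hC⟩‖ ≠ 1 := fun h => hnot ⟨hC, h⟩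
      rcases lt_or_gt_of_ne hne with hlt | hgt
      · exact Or.inl (Or.inr ⟨p, hp, σ, P, hC, hov, hlt⟩)
      · right
        have hne0 : P.φ ⟨x, hC⟩ ≠ 0 := by
          intro h0
          rw [h0, norm_zero] at hgt
          exact absurd hgt (by norm_num)
        have hker := mt (P.ker ⟨x, hC⟩).2 hne0
        push Not at hker
        obtain ⟨hx0, hinvC⟩ := hker
        have hinvC' : x⁻¹ ∈ P.C := hinvC
        refine ⟨p, hp, σ, P, hinvC', hov, ?_⟩
        have hmul : P.φ ⟨x, hC⟩ * P.φ ⟨x⁻¹, hinvC'⟩ = 1 := by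
          rw [← map_mul]
          have e : (⟨x, hC⟩ : P.C) * ⟨x⁻¹, hinvC'⟩ = 1 := by
            apply Subtype.ext
            exact mul_inv_cancel₀ hx0
          rw [e, map_one]
        have hn : ‖P.φ ⟨x, hC⟩‖ * ‖P.φ ⟨x⁻¹, hinvC'⟩‖ = 1 := by
          rw [← norm_mul, hmul, norm_one]
        by_contra hcon
        push Not at hcon
        nlinarith
    · exact Or.inl (Or.inl ⟨p, hp, σ, P, hov, hC⟩)

end Pool.Agent.Helper99.RG
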